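import Mathlib

set_option autoImplicit false

namespace Pool.Agent.Results.MP_21a028_co.NotBounded

open SimpleGraph Classical

/-- Labelled graphs that can be built with labels in `Fin k` by the clique-width operations
(up to isomorphism). -/
inductive CW (k : ℕ) : (V : Type) → SimpleGraph V → (V → Fin k) → Prop
  | single (l : Fin k) : CW k Unit ⊥ (fun _ => l)
  | union {V W : Type} {G : SimpleGraph V} {H : SimpleGraph W} {f : V → Fin k} {g : W → Fin k} :
      CW k V G f → CW k W H g → CW k (V ⊕ W) (G.sum H) (Sum.elim f g)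
  | relabel {V : Type} {G : SimpleGraph V} {f : V → Fin k} (i j : Fin k) :
      CW k V G f → CW k V G (fun v => if f v = i then j else f v)
  | join {V : Type} {G : SimpleGraph V} {f : V → Fin k} (i j : Fin k) : i ≠ j →
      CW k V G f → CW k V (G ⊔ fromRel (fun u v => f u = i ∧ f v = j)) f
  | iso {V W : Type} {G : SimpleGraph V} {H : SimpleGraph W} {f : V → Fin k} (e : G ≃g H) :
      CW k V G f → CW k W H (f ∘ e.symm)

/-- The vertex set can be partitioned into `k` dominating sets (the fibres of `col`). -/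
def DomPartition {V : Type} (G : SimpleGraph V) (k : ℕ) : Prop :=
  ∃ col : V → Fin k, ∀ (i : Fin k) (v : V), ∃ w, (w = v ∨ G.Adj v w) ∧ col w = i

def ext {V : Type} (G : SimpleGraph V) (S : Set V) : SimpleGraph (V ⊕ Unit) where
  Adj x y := match x, y with
    | .inl u, .inl v => G.Adj u v
    | .inl u, .inr _ => u ∈ S
    | .inr _, .inl v => v ∈ S
    | .inr _, .inr _ => False
  symm := ⟨fun x y h => by
    rcases x with x | x <;> rcases y with y | y
    · exact h.symm
    · exact h
    · exact h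
    · exact h⟩
  loopless := ⟨fun x h => by
    rcases x with x | x
    · exact G.loopless.1 _ h
    · exact h⟩

lemma addJoin {k : ℕ} {V : Type} {G : SimpleGraph V} {f : V → Fin k} (h : CW k V G f)
    (l j : Fin k) (hlj : l ≠ j) (hl : ∀ v, f v ≠ l) :
    CW k (V ⊕ Unit) (ext G {v | f v = j}) (Sum.elim f (fun _ => l)) := by
  have := CW.join l j hlj (CW.union h (CW.single l))
  convert this using 1
  ext x y
  rcases x with x | x <;> rcases y with y | y <;> simp [ext, hl, hlj]

lemma deg_le {V W : Type} [Finite W] {G : SimpleGraph V} {H : SimpleGraph W} (φ : V → W)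
    (hφ : Function.Injective φ) (S : Set V) (T : Set W) (h : ∀ u ∈ S, φ u ∈ T) :
    S.ncard ≤ T.ncard :=
  Set.ncard_le_ncard_of_injOn φ h hφ.injOn (Set.toFinite _)

section
variable {k : ℕ} (A B C D : Fin k) (d : ℕ)

def St (h m : ℕ) (P : Prop → Prop → Prop → Prop) : Prop :=
  ∃ (V : Type) (_ : Finite V) (G : SimpleGraph V) (f : V → Fin k), CW k V G f ∧
    (∀ v, f v = A ∨ (0 < m ∧ f v = B) ∨ f v = C) ∧
    (∀ v, f v ≠ A → d ≤ (G.neighborSet v).ncard) ∧ (∀ v, h ≤ (G.neighborSet v).ncard) ∧
    d ≤ {v | f v = A}.ncard ∧ m ≤ {v | f v = B}.ncard ∧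
    ∀ c : V → Bool, P (∃ s, f s = C ∧ ∀ w, G.Adj s w → c w = true) (∃ b, f b = B ∧ c b = false)
      (∃ u, f u = A ∧ ∀ w, G.Adj u w → c w = false)

def P0 (x _y z : Prop) : Prop := x ∨ z
def P1 (x y z : Prop) : Prop := x ∨ (y → z)

variable {A B C D d}

lemma base (j : ℕ) : ∃ (V : Type) (_ : Finite V), CW k V ⊥ (fun _ => A) ∧ j + 1 ≤ Nat.card V := by
  induction j with
  | zero => exact ⟨Unit, inferInstance, CW.single A, by simp⟩
  | succ j ih =>
    obtain ⟨V, _, h1, h2⟩ := ih
    refine ⟨V ⊕ Unit, inferInstance, ?_, by rw [Nat.card_sum]; simp; omega⟩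
    convert CW.union h1 (CW.single A) using 1
    · ext x y; rcases x with x | x <;> rcases y with y | y <;> simp
    · ext x; rcases x with x | x <;> rfl

lemma st0 : St A B C d 0 0 P0 := by
  obtain ⟨V, _, h1, h2⟩ := base (A := A) d
  haveI : Nonempty V := (Nat.card_pos_iff.1 (by omega)).1
  refine ⟨V, inferInstance, ⊥, fun _ => A, h1, fun _ => Or.inl rfl, fun v h => absurd rfl h,
    fun _ => Nat.zero_le _, by simp; omega, Nat.zero_le _, fun c => Or.inr ?_⟩
  exact ⟨Classical.arbitrary V, rfl, by simp⟩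

lemma root (hAB : A ≠ B) (hAC : A ≠ C) (hBC : B ≠ C) {h : ℕ} (hh : h + 1 ≤ d)
    (H : St A B C d h 0 P0) : St A B C d (h + 1) 1 P1 := by
  obtain ⟨V, _, G, f, h1, h2, h3, h4, h5, -, h7⟩ := H
  have nB : ∀ v, f v ≠ B := fun v e => by
    rcases h2 v with h | h | h
    · exact hAB (h.symm.trans e)
    · omega
    · exact hBC (e.symm.trans h)
  have d1 : ∀ v, f v ≠ A → d ≤ ((ext G {v | f v = A}).neighborSet (.inl v)).ncard := fun v hv =>
    (h3 v hv).trans (deg_le (G := G) (H := ext G {v | f v = A}) _ Sum.inl_injective _ _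
      fun _ hu => hu)
  have d2 : ∀ x, d ≤ ((ext G {v | f v = A}).neighborSet (.inr x)).ncard := fun x =>
    h5.trans (deg_le (G := G) (H := ext G {v | f v = A}) _ Sum.inl_injective _ _ fun _ hu => hu)
  refine ⟨V ⊕ Unit, inferInstance, _, _, addJoin h1 B A hAB.symm nB, ?_, ?_, ?_, ?_, ?_, ?_⟩
  · rintro (v | v)
    · rcases h2 v with h | h | h
      · exact Or.inl h
      · omega
      · exact Or.inr (Or.inr h)
    · exact Or.inr (Or.inl ⟨one_pos, rfl⟩)
  · rintro (v | v) hv
    · exact d1 v hv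
    · exact d2 v
  · rintro (v | v)
    · by_cases hv : f v = A
      · have e : insert (Sum.inr ()) (Sum.inl '' G.neighborSet v) ⊆
            (ext G {v | f v = A}).neighborSet (.inl v) := by
          rintro _ (rfl | ⟨u, hu, rfl⟩)
          · exact hv
          · exact hu
        have := Set.ncard_le_ncard e (Set.toFinite _)
        rw [Set.ncard_insert_of_notMem (by simp), Set.ncard_image_of_injective _
          Sum.inl_injective] at this
        have := h4 v
        omega
      · exact hh.trans (d1 v hv)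
    · exact hh.trans (d2 v)
  · exact h5.trans (deg_le (G := G) (H := ext G {v | f v = A}) _ Sum.inl_injective _ _
      fun _ hu => hu)
  · exact (Set.ncard_pos (Set.toFinite _)).2 ⟨.inr (), rfl⟩
  · intro c
    rcases h7 (fun v => c (.inl v)) with ⟨s, hs, hs'⟩ | ⟨u, hu, hu'⟩
    · refine Or.inl ⟨.inl s, hs, ?_⟩
      rintro (w | w) hw
      · exact hs' w hw
      · exact absurd ((show f s = A from hw).symm.trans hs) hAC
    · refine Or.inr ?_
      rintro ⟨b | b, hb, hb'⟩
      · exact absurd hb (nB b)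
      · refine ⟨.inl u, hu, ?_⟩
        rintro (w | w) hw
        · exact hu' w hw
        · exact hb'

lemma uni {h m m' : ℕ} (H : St A B C d h m P1) (H' : St A B C d h m' P1) :
    St A B C d h (m + m') P1 := by
  obtain ⟨V, _, G, f, h1, h2, h3, h4, h5, h6, h7⟩ := H
  obtain ⟨W, _, G', g, g1, g2, g3, g4, -, g6, g7⟩ := H'
  have a1 : ∀ v, (G.neighborSet v).ncard ≤ ((G.sum G').neighborSet (.inl v)).ncard := fun v =>
    deg_le (G := G) (H := G.sum G') _ Sum.inl_injective _ _ fun _ hu => hu
  have a2 : ∀ v, (G'.neighborSet v).ncard ≤ ((G.sum G').neighborSet (.inr v)).ncard := fun v =>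
    deg_le (G := G') (H := G.sum G') _ Sum.inr_injective _ _ fun _ hu => hu
  refine ⟨V ⊕ W, inferInstance, _, _, CW.union h1 g1, ?_, ?_, ?_, ?_, ?_, ?_⟩
  · rintro (v | v)
    · exact (h2 v).imp_right (Or.imp_left fun h => ⟨by omega, h.2⟩)
    · exact (g2 v).imp_right (Or.imp_left fun h => ⟨by omega, h.2⟩)
  · rintro (v | v) hv
    · exact (h3 v hv).trans (a1 v)
    · exact (g3 v hv).trans (a2 v)
  · rintro (v | v)
    · exact (h4 v).trans (a1 v)
    · exact (g4 v).trans (a2 v)
  · exact h5.trans (deg_le (G := G) (H := G.sum G') _ Sum.inl_injective _ _ fun _ hu => hu)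
  · have e : Sum.inl '' {v | f v = B} ∪ Sum.inr '' {v | g v = B} ⊆ {v | Sum.elim f g v = B} := by
      rintro _ (⟨u, hu, rfl⟩ | ⟨u, hu, rfl⟩) <;> exact hu
    have := Set.ncard_le_ncard e (Set.toFinite _)
    rw [Set.ncard_union_eq (by simp [Set.disjoint_left]), Set.ncard_image_of_injective _
      Sum.inl_injective, Set.ncard_image_of_injective _ Sum.inr_injective] at this
    omega
  · intro c
    rcases h7 (fun v => c (.inl v)) with ⟨s, hs, hs'⟩ | p1
    · refine Or.inl ⟨.inl s, hs, ?_⟩
      rintro (w | w) hw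
      · exact hs' w hw
      · simp at hw
    rcases g7 (fun v => c (.inr v)) with ⟨s, hs, hs'⟩ | p2
    · refine Or.inl ⟨.inr s, hs, ?_⟩
      rintro (w | w) hw
      · simp at hw
      · exact hs' w hw
    refine Or.inr ?_
    rintro ⟨b | b, hb⟩
    · obtain ⟨u, hu, hu'⟩ := p1 ⟨b, hb⟩
      refine ⟨.inl u, hu, ?_⟩
      rintro (w | w) hw
      · exact hu' w hw
      · simp at hw
    · obtain ⟨u, hu, hu'⟩ := p2 ⟨b, hb⟩
      refine ⟨.inr u, hu, ?_⟩
      rintro (w | w) hw
      · simp at hw
      · exact hu' w hw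

lemma many {h : ℕ} (H : St A B C d h 1 P1) (m : ℕ) : St A B C d h (m + 1) P1 := by
  induction m with
  | zero => exact H
  | succ m ih => exact uni ih H

lemma sealed (hAB : A ≠ B) (hAC : A ≠ C) (hBC : B ≠ C) (hAD : A ≠ D) (hBD : B ≠ D) (hCD : C ≠ D)
    {h : ℕ} (hh : h ≤ d) (H : St A B C d h (d + 1) P1) : St A B C d h 0 P0 := by
  obtain ⟨V, _, G, f, h1, h2, h3, h4, h5, h6, h7⟩ := H
  have nD : ∀ v, f v ≠ D := fun v e => by
    rcases h2 v with h | h | h
    · exact hAD (h.symm.trans e)
    · exact hBD (h.2.symm.trans e)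
    · exact hCD (h.symm.trans e)
  have k1 : CW k (V ⊕ Unit) (ext G {v | f v = B})
      (Sum.elim (fun v => if f v = A then A else C) (fun _ => C)) := by
    convert CW.relabel D C (CW.relabel B C (addJoin h1 D B hBD.symm nD)) using 1
    ext1 x
    rcases x with x | x
    · rcases h2 x with h | h | h
      · simp [h, hAB, hAD]
      · simp [h.2, hAB.symm]
      · simp [h, hAC.symm]
    · simp [hBD.symm]
  have a1 : ∀ v, (G.neighborSet v).ncard ≤ ((ext G {v | f v = B}).neighborSet (.inl v)).ncard :=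
    fun v => deg_le (G := G) (H := ext G {v | f v = B}) _ Sum.inl_injective _ _ fun _ hu => hu
  have a2 : ∀ x, d ≤ ((ext G {v | f v = B}).neighborSet (.inr x)).ncard := fun x =>
    le_trans (by omega) (deg_le (G := G) (H := ext G {v | f v = B}) _ Sum.inl_injective
      {v | f v = B} _ fun _ hu => hu)
  refine ⟨V ⊕ Unit, inferInstance, _, _, k1, ?_, ?_, ?_, ?_, Nat.zero_le _, ?_⟩
  · rintro (v | v)
    · by_cases hv : f v = A <;> simp [hv]
    · simp
  · rintro (v | v) hv
    · exact (h3 v fun e => hv (by simp [e])).trans (a1 v)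
    · exact a2 v
  · rintro (v | v)
    · exact (h4 v).trans (a1 v)
    · exact hh.trans (a2 v)
  · exact h5.trans (deg_le (G := G) (H := ext G {v | f v = B}) _ Sum.inl_injective _ _
      fun u hu => by simp [show f u = A from hu])
  · intro c
    rcases h7 (fun v => c (.inl v)) with ⟨s, hs, hs'⟩ | p1
    · refine Or.inl ⟨.inl s, by simp [hs, hAC.symm], ?_⟩
      rintro (w | w) hw
      · exact hs' w hw
      · exact absurd ((show f s = B from hw).symm.trans hs) hBC
    by_cases hb : ∃ b, f b = B ∧ c (.inl b) = false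
    · obtain ⟨u, hu, hu'⟩ := p1 hb
      refine Or.inr ⟨.inl u, by simp [hu], ?_⟩
      rintro (w | w) hw
      · exact hu' w hw
      · exact absurd (hu.symm.trans (show f u = B from hw)) hAB
    · refine Or.inl ⟨.inr (), rfl, ?_⟩
      rintro (w | w) hw
      · by_contra hc
        exact hb ⟨w, hw, by simpa using hc⟩
      · exact hw.elim

end

theorem result (t : ℕ) (ht : 4 ≤ t) (d : ℕ) :
    ∃ (V : Type) (_ : Finite V) (G : SimpleGraph V), (∃ f : V → Fin t, CW t V G f) ∧
      (∀ v, d ≤ (G.neighborSet v).ncard) ∧ ∀ k, 4 ≤ k → ¬ DomPartition G k := by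
  have key : ∀ h, h ≤ d → St (⟨0, by omega⟩ : Fin t) ⟨1, by omega⟩ ⟨2, by omega⟩ d h 0 P0 := by
    intro h
    induction h with
    | zero => exact fun _ => st0
    | succ h ih =>
      intro hh
      exact sealed (D := ⟨3, by omega⟩) (by simp) (by simp) (by simp) (by simp) (by simp) (by simp) hh
        (many (root (by simp) (by simp) (by simp) hh (ih (by omega))) d)
  obtain ⟨V, _, G, f, h1, -, -, h4, -, -, h7⟩ := key d le_rfl
  refine ⟨V, inferInstance, G, ⟨f, h1⟩, h4, ?_⟩
  rintro k hk ⟨col, hc⟩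
  rcases h7 (fun v => decide ((col v : ℕ) < 2)) with ⟨s, -, hs⟩ | ⟨s, -, hs⟩
  · obtain ⟨w, a1, a2⟩ := hc ⟨2, by omega⟩ s
    obtain ⟨w', b1, b2⟩ := hc ⟨3, by omega⟩ s
    rcases a1 with rfl | a1
    · rcases b1 with rfl | b1
      · rw [a2] at b2; simp at b2
      · have := hs _ b1; rw [b2] at this; simp at this
    · have := hs _ a1; rw [a2] at this; simp at this
  · obtain ⟨w, a1, a2⟩ := hc ⟨0, by omega⟩ s
    obtain ⟨w', b1, b2⟩ := hc ⟨1, by omega⟩ s
    rcases a1 with rfl | a1
    · rcases b1 with rfl | b1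
      · rw [a2] at b2; simp at b2
      · have := hs _ b1; rw [b2] at this; simp at this
    · have := hs _ a1; rw [a2] at this; simp at this

end Pool.Agent.Results.MP_21a028_co.NotBounded
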